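import Mathlib

namespace Pool.Agent.Results.MP_bb4aa0_pr.Book

open SimpleGraph Finset

/-- forests of `G` with `k` components, as edge sets -/
def forests {V : Type} [Fintype V] (G : SimpleGraph V) (k : ℕ) : Set (Finset (Sym2 V)) :=
  {F | (F : Set (Sym2 V)) ⊆ G.edgeSet ∧ (fromEdgeSet (F : Set (Sym2 V))).IsAcyclic ∧
    F.card + k = Fintype.card V}

/-- probability that the uniform `k`-component forest contains `e` -/
noncomputable def marg {V : Type} [Fintype V] (G : SimpleGraph V) (k : ℕ) (e : Sym2 V) : ℝ :=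
  ({F ∈ forests G k | e ∈ F}.ncard : ℝ) / (forests G k).ncard

theorem acyclic_of_rank {V : Type} [DecidableEq V] (G : SimpleGraph V) (r : V → ℕ)
    (hr : Function.Injective r)
    (h : ∀ v a b, G.Adj v a → G.Adj v b → r a < r v → r b < r v → a = b) : G.IsAcyclic := by
  intro v c hc
  obtain ⟨u, hu, hm⟩ := exists_max_image c.support.toFinset r ⟨v, by simp⟩
  rw [List.mem_toFinset] at hu
  have hc' := hc.rotate hu
  have hl : ∀ a, G.Adj u a → a ∈ (c.rotate u hu).support → r a < r u := fun a ha h =>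
    lt_of_le_of_ne (hm a (by simpa using h)) fun e => ha.ne' (hr e)
  have h1 := Walk.adj_snd hc'.not_nil
  have h2 := (Walk.adj_penultimate hc'.not_nil).symm
  exact hc'.snd_ne_penultimate (h u _ _ h1 h2 (hl _ h1 (Walk.getVert_mem_support _ _))
    (hl _ h2 (Walk.getVert_mem_support _ _)))

def G : SimpleGraph (Fin 7) where
  Adj i j := i ≠ j ∧ (i < 2 ∨ j < 2)
  symm := ⟨fun _ _ h => ⟨h.1.symm, h.2.symm⟩⟩
  loopless := ⟨fun _ h => h.1 rfl⟩

instance : DecidableRel G.Adj := fun _ _ => inferInstanceAs (Decidable (_ ∧ _))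

def good (F : Finset (Sym2 (Fin 7))) : Prop :=
  ∀ z : Fin 7, 2 ≤ z → s(0, z) ∈ F → s(1, z) ∈ F →
    s(0, 1) ∉ F ∧ ∀ y : Fin 7, 2 ≤ y → s(0, y) ∈ F → s(1, y) ∈ F → y = z

instance : DecidablePred good := fun F =>
  have : ∀ z : Fin 7, Decidable (∀ y : Fin 7, 2 ≤ y → s(0, y) ∈ F → s(1, y) ∈ F → y = z) :=
    fun _ => Fintype.decidableForallFintype
  Fintype.decidableForallFintype

theorem iff_good (F : Finset (Sym2 (Fin 7))) (hF : (F : Set (Sym2 (Fin 7))) ⊆ G.edgeSet) :
    (fromEdgeSet (F : Set (Sym2 (Fin 7)))).IsAcyclic ↔ good F := by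
  have adj : ∀ a b, s(a, b) ∈ F → (fromEdgeSet (F : Set (Sym2 (Fin 7)))).Adj a b := fun a b h =>
    (fromEdgeSet_adj _).2 ⟨h, (hF h).1⟩
  constructor
  · intro h z hz h0 h1
    have hz0 : z ≠ 0 := by omega
    have hz1 : z ≠ 1 := by omega
    have hp : (Walk.cons (adj 0 z h0) (adj 1 z h1).symm.toWalk).IsPath := by
      simp [Walk.isPath_def, hz0.symm, hz1]
    refine ⟨fun h2 => ?_, fun y hy h2 h3 => ?_⟩
    · have := congrArg (fun p => p.1.length) 
        ((h.subsingleton_path _ _).elim ⟨_, hp⟩ (Path.singleton (adj 0 1 h2)))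
      simp [Path.singleton] at this
    · have hy0 : y ≠ 0 := by omega
      have hy1 : y ≠ 1 := by omega
      have hq : (Walk.cons (adj 0 y h2) (adj 1 y h3).symm.toWalk).IsPath := by
        simp [Walk.isPath_def, hy0.symm, hy1]
      have := congrArg (fun p => p.1.support) ((h.subsingleton_path _ _).elim ⟨_, hq⟩ ⟨_, hp⟩)
      simpa using this
  · intro h
    have hG : ∀ a b, (fromEdgeSet (F : Set (Sym2 (Fin 7)))).Adj a b →
        s(a, b) ∈ F ∧ s(b, a) ∈ F ∧ (a < 2 ∨ b < 2) := fun a b h => by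
      have h1 := ((fromEdgeSet_adj _).1 h).1
      exact ⟨h1, Sym2.eq_swap ▸ h1, (hF h1).2⟩
    by_cases hz : ∃ z : Fin 7, 2 ≤ z ∧ s(0, z) ∈ F ∧ s(1, z) ∈ F
    · obtain ⟨z, hz, h0, h1⟩ := hz
      obtain ⟨h2, h3⟩ := h z hz h0 h1
      refine acyclic_of_rank _ (fun v => if v = z then 1 else 2 * v) (fun a b e => ?_)
        fun v a b ha hb h4 h5 => ?_
      · simp only at e
        split_ifs at e <;> omega
      obtain ⟨a1, a2, a3⟩ := hG _ _ ha
      obtain ⟨b1, b2, b3⟩ := hG _ _ hb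
      by_contra hab
      by_cases hv : v < 2
      · have : v = 1 ∧ (a = 0 ∨ b = 0) := by split_ifs at h4 h5 <;> omega
        obtain ⟨rfl, rfl | rfl⟩ := this
        exacts [h2 a2, h2 b2]
      · have : (a = 0 ∧ b = 1) ∨ (a = 1 ∧ b = 0) := by omega
        have hv' : v = z := by
          obtain ⟨rfl, rfl⟩ | ⟨rfl, rfl⟩ := this
          exacts [h3 v (by omega) a2 b2, h3 v (by omega) b2 a2]
        split_ifs at h4 h5 <;> omega
    · refine acyclic_of_rank _ (fun v => v) Fin.val_injective fun v a b ha hb h4 h5 => ?_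
      obtain ⟨a1, a2, a3⟩ := hG _ _ ha
      obtain ⟨b1, b2, b3⟩ := hG _ _ hb
      by_contra hab
      have : (a = 0 ∧ b = 1) ∨ (a = 1 ∧ b = 0) := by omega
      obtain ⟨rfl, rfl⟩ | ⟨rfl, rfl⟩ := this
      exacts [hz ⟨v, by omega, a2, b2⟩, hz ⟨v, by omega, b2, a2⟩]

theorem forests_eq (i k : ℕ) (h : i + k = 7) :
    forests G k = ((powersetCard i G.edgeFinset).filter good : Finset _) := by
  ext F
  simp only [forests, Set.mem_ofPred_eq, coe_filter, mem_powersetCard, Fintype.card_fin,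
    ← coe_subset, coe_edgeFinset]
  constructor
  · rintro ⟨h1, h2, h3⟩
    exact ⟨⟨h1, by omega⟩, (iff_good F h1).1 h2⟩
  · rintro ⟨⟨h1, h2⟩, h3⟩
    exact ⟨h1, (iff_good F h1).2 h3, by omega⟩

theorem marg_eq (i k : ℕ) (h : i + k = 7) (e : Sym2 (Fin 7)) : marg G k e =
    ((((powersetCard i G.edgeFinset).filter good).filter (e ∈ ·)).card : ℝ) /
      ((powersetCard i G.edgeFinset).filter good).card := by
  rw [marg, forests_eq i k h, Set.ncard_coe_finset, ← Set.ncard_coe_finset (filter (e ∈ ·) _)]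
  simp only [coe_filter, mem_filter, Set.mem_ofPred_eq]

theorem result : ∃ (G : SimpleGraph (Fin 7)) (e : Sym2 (Fin 7)), G.Connected ∧ e ∈ G.edgeSet ∧
    marg G 1 e < marg G 2 e := by
  refine ⟨G, s(0, 1), ?_, by decide, ?_⟩
  · refine (connected_iff_exists_forall_reachable _).2 ⟨0, fun w => ?_⟩
    by_cases h : w = 0
    · rw [h]
    · exact Adj.reachable ⟨Ne.symm h, Or.inl (by decide)⟩
  have h1 : ((powersetCard 6 G.edgeFinset).filter good).card = 112 := by decide +kernel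
  have h2 : (((powersetCard 6 G.edgeFinset).filter good).filter (s(0, 1) ∈ ·)).card = 32 := by
    decide +kernel
  have h3 : ((powersetCard 5 G.edgeFinset).filter good).card = 272 := by decide +kernel
  have h4 : (((powersetCard 5 G.edgeFinset).filter good).filter (s(0, 1) ∈ ·)).card = 80 := by
    decide +kernel
  rw [marg_eq 6 1 rfl, marg_eq 5 2 rfl, h1, h2, h3, h4]
  norm_num

end Pool.Agent.Results.MP_bb4aa0_pr.Book
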